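import Mathlib

/-!
# Measures of Mackey noncompactness in dual spaces: definitions
-/

set_option autoImplicit false
open Filter Topology
open scoped ENNReal NNReal

namespace Q99.RM

/-- Weakly compact subsets. -/
def IsWeaklyCompact (𝕜 : Type) [RCLike 𝕜] {X : Type} [NormedAddCommGroup X] [NormedSpace 𝕜 X] (K : Set X) : Prop :=
  IsCompact (toWeakSpace 𝕜 X '' K)

/-- Completely continuous operators: weakly convergent sequences are mapped to norm convergent sequences. -/
def CompletelyContinuous {𝕜 : Type} [RCLike 𝕜] {X Y : Type} [NormedAddCommGroup X] [NormedSpace 𝕜 X]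
    [NormedAddCommGroup Y] [NormedSpace 𝕜 Y] (T : X →L[𝕜] Y) : Prop :=
  ∀ (x : ℕ → X) (a : X), (∀ f : StrongDual 𝕜 X, Tendsto (fun n => f (x n)) atTop (𝓝 (f a))) →
    Tendsto (fun n => T (x n)) atTop (𝓝 (T a))

/-- Weakly compact operators: the image of the closed unit ball is relatively weakly compact. -/
def WeaklyCompact {𝕜 : Type} [RCLike 𝕜] {X Y : Type} [NormedAddCommGroup X] [NormedSpace 𝕜 X]
    [NormedAddCommGroup Y] [NormedSpace 𝕜 Y] (T : X →L[𝕜] Y) : Prop :=
  IsCompact (closure (toWeakSpace 𝕜 Y '' (T '' Metric.closedBall (0 : X) 1)))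

/-- The reciprocal Dunford-Pettis property. -/
def RDPP (𝕜 : Type) [RCLike 𝕜] (X : Type) [NormedAddCommGroup X] [NormedSpace 𝕜 X] : Prop :=
  ∀ (Y : Type) [NormedAddCommGroup Y] [NormedSpace 𝕜 Y] [CompleteSpace Y] (T : X →L[𝕜] Y),
    CompletelyContinuous T → WeaklyCompact T

/-- The Mackey topology of the dual space: uniform convergence on the weakly compact subsets. -/
@[reducible] def mackey (𝕜 : Type) [RCLike 𝕜] (X : Type) [NormedAddCommGroup X] [NormedSpace 𝕜 X] :
    TopologicalSpace (StrongDual 𝕜 X) :=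
  TopologicalSpace.induced (fun f => UniformOnFun.ofFun {K : Set X | IsWeaklyCompact 𝕜 K} (f : X → 𝕜)) inferInstance

/-- `d^(A, B) = sup_{a ∈ A} d(a, B)`. -/
noncomputable def dhat {E : Type} [PseudoEMetricSpace E] (A B : Set E) : ℝ≥0∞ := ⨆ a ∈ A, Metric.infEDist a B

/-- `χ₀ (A) = inf {d^(A, F) : F ⊆ A finite}`. -/
noncomputable def chi0 {E : Type} [PseudoEMetricSpace E] (A : Set E) : ℝ≥0∞ :=
  ⨅ (F : Set E) (_ : F ⊆ A) (_ : F.Finite), dhat A F

/-- The restriction of a functional to `L`, in the space of the functions on `L` with the supremum distance. -/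
def restr {𝕜 : Type} [RCLike 𝕜] {X : Type} [NormedAddCommGroup X] [NormedSpace 𝕜 X] (L : Set X)
    (f : StrongDual 𝕜 X) : UniformFun L 𝕜 := UniformFun.ofFun fun x : L => f x

/-- `χ_m (A)`: the supremum of `χ₀ (A|L)` over the weakly compact subsets `L` of the closed unit ball. -/
noncomputable def chim {𝕜 : Type} [RCLike 𝕜] {X : Type} [NormedAddCommGroup X] [NormedSpace 𝕜 X]
    (A : Set (StrongDual 𝕜 X)) : ℝ≥0∞ :=
  ⨆ (L : Set X) (_ : L ⊆ Metric.closedBall 0 1) (_ : IsWeaklyCompact 𝕜 L), chi0 (restr L '' A)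

/-- `ω_m (A)`: the infimum of `d^(A, H)` over the Mackey compact subsets `H` of the dual space. -/
noncomputable def omegam {𝕜 : Type} [RCLike 𝕜] {X : Type} [NormedAddCommGroup X] [NormedSpace 𝕜 X]
    (A : Set (StrongDual 𝕜 X)) : ℝ≥0∞ :=
  ⨅ (H : Set (StrongDual 𝕜 X)) (_ : @IsCompact _ (mackey 𝕜 X) H), dhat A H

end Q99.RM
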