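import Pool.Agent.Q99.RM.Defs

/-!
# Sequences in weakly compact sets have weakly convergent subsequences
-/

set_option autoImplicit false
open Filter Topology
open scoped ENNReal NNReal

namespace Q99.RM

variable {𝕜 : Type} [RCLike 𝕜] {X : Type} [NormedAddCommGroup X] [NormedSpace 𝕜 X]

/-- a separable set is separated by countably many functionals -/
theorem exists_sep {Z : Set X} (hZ : TopologicalSpace.IsSeparable Z) :
    ∃ f : ℕ → StrongDual 𝕜 X, ∀ z ∈ Z, (∀ n, f n z = 0) → z = 0 := by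
  obtain ⟨c, hc, hcZ⟩ := hZ
  rcases c.eq_empty_or_nonempty with h0 | h0
  · refine ⟨fun _ => 0, fun z hz _ => ?_⟩
    have := hcZ hz
    rw [h0, closure_empty] at this
    exact absurd this (Set.notMem_empty z)
  · obtain ⟨u, hu⟩ := hc.exists_eq_range h0
    have h1 : ∀ n, ∃ f : StrongDual 𝕜 X, ‖f‖ ≤ 1 ∧ f (u n) = (‖u n‖ : 𝕜) := by
      intro n
      obtain ⟨f, hf1, hf2⟩ := exists_dual_vector'' 𝕜 (u n)
      exact ⟨f, hf1, hf2⟩
    choose f hf1 hf2 using h1
    refine ⟨f, fun z hz hfz => ?_⟩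
    by_contra hne
    have hpos : 0 < ‖z‖ := norm_pos_iff.2 hne
    have h2 := hcZ hz
    rw [Metric.mem_closure_iff] at h2
    obtain ⟨b, hb, hzb⟩ := h2 (‖z‖ / 3) (by positivity)
    rw [hu] at hb
    obtain ⟨n, rfl⟩ := hb
    rw [dist_eq_norm] at hzb
    have h3 : ‖f n (u n - z)‖ ≤ ‖u n - z‖ := by
      refine ((f n).le_opNorm _).trans ?_
      nlinarith [hf1 n, norm_nonneg (u n - z)]
    rw [map_sub, hfz n, sub_zero, hf2, RCLike.norm_ofReal, abs_norm, norm_sub_rev] at h3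
    have h4 := norm_sub_norm_le z (u n)
    linarith

theorem isClosed_weak {Z : Submodule 𝕜 X} (hZ : IsClosed (Z : Set X)) :
    IsClosed (toWeakSpace 𝕜 X '' (Z : Set X)) := by
  let _ : NormedSpace ℝ X := NormedSpace.restrictScalars ℝ 𝕜 X
  have _ : IsScalarTower ℝ 𝕜 X := RestrictScalars.isScalarTower ℝ 𝕜 X
  have hc : Convex ℝ (Z : Set X) := (Z.restrictScalars ℝ).convex
  have h := hc.toWeakSpace_closure (𝕜 := 𝕜)
  rw [hZ.closure_eq] at h
  rw [h]
  exact isClosed_closure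

theorem exists_subseq {L : Set X} (hL : IsWeaklyCompact 𝕜 L) (x : ℕ → X) (hx : ∀ n, x n ∈ L) :
    ∃ (φ : ℕ → ℕ) (a : X), StrictMono φ ∧ a ∈ L ∧ ∀ f : StrongDual 𝕜 X, Tendsto (fun n => f (x (φ n))) atTop (𝓝 (f a)) := by
  obtain ⟨Z, hZ⟩ : ∃ Z : Submodule 𝕜 X, Z = (Submodule.span 𝕜 (Set.range x)).topologicalClosure := ⟨_, rfl⟩
  have hZs : TopologicalSpace.IsSeparable (Z : Set X) := by
    rw [hZ, Submodule.topologicalClosure_coe]
    exact ((Set.countable_range x).isSeparable.span (R := 𝕜)).closure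
  have hZc : IsClosed (Z : Set X) := by
    rw [hZ]
    exact Submodule.isClosed_topologicalClosure _
  have hxZ : ∀ n, x n ∈ Z := by
    intro n
    rw [hZ]
    exact Submodule.le_topologicalClosure _ (Submodule.subset_span ⟨n, rfl⟩)
  obtain ⟨f, hf⟩ := exists_sep (𝕜 := 𝕜) hZs
  obtain ⟨S, hS⟩ : ∃ S : Set (WeakSpace 𝕜 X), S = toWeakSpace 𝕜 X '' (L ∩ Z) := ⟨_, rfl⟩
  have hSc : IsCompact S := by
    have h1 : S = (toWeakSpace 𝕜 X '' L) ∩ (toWeakSpace 𝕜 X '' Z) := by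
      rw [hS, Set.image_inter (toWeakSpace 𝕜 X).injective]
    rw [h1]
    refine hL.inter_right ?_
    exact isClosed_weak hZc
  have hev : ∀ g : StrongDual 𝕜 X, Continuous (fun v : WeakSpace 𝕜 X => g ((toWeakSpace 𝕜 X).symm v)) :=
    fun g => WeakBilin.eval_continuous _ g
  let Φ : S → (ℕ → 𝕜) := fun v n => f n ((toWeakSpace 𝕜 X).symm v)
  have hΦ : Continuous Φ := continuous_pi fun n => (hev (f n)).comp continuous_subtype_val
  have hΦi : Function.Injective Φ := by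
    intro v w hvw
    have hmem : ∀ v : S, (toWeakSpace 𝕜 X).symm (v : WeakSpace 𝕜 X) ∈ Z := by
      rintro ⟨v, hv⟩
      rw [hS] at hv
      obtain ⟨y, hy, rfl⟩ := hv
      exact hy.2
    have h1 := hf _ (Z.sub_mem (hmem v) (hmem w)) (fun n => by
      rw [map_sub, sub_eq_zero]
      exact congrFun hvw n)
    rw [sub_eq_zero] at h1
    exact Subtype.ext ((toWeakSpace 𝕜 X).symm.injective h1)
  have _ : CompactSpace S := isCompact_iff_compactSpace.1 hSc
  have hemb := (hΦ.isClosedEmbedding hΦi).isEmbedding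
  have _ : TopologicalSpace.MetrizableSpace S := hemb.metrizableSpace
  have hxS : ∀ n, toWeakSpace 𝕜 X (x n) ∈ S := by
    intro n
    rw [hS]
    exact ⟨x n, ⟨hx n, hxZ n⟩, rfl⟩
  obtain ⟨a, φ, hφ, ha⟩ := CompactSpace.tendsto_subseq (fun n => (⟨_, hxS n⟩ : S))
  have haL : (toWeakSpace 𝕜 X).symm (a : WeakSpace 𝕜 X) ∈ L := by
    have h1 : (a : WeakSpace 𝕜 X) ∈ toWeakSpace 𝕜 X '' (L ∩ Z) := by
      rw [← hS]
      exact a.2
    obtain ⟨y, hy, hya⟩ := h1
    rw [← hya]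
    exact hy.1
  refine ⟨φ, (toWeakSpace 𝕜 X).symm a, hφ, haL, fun g => ?_⟩
  exact (((hev g).comp continuous_subtype_val).tendsto a).comp ha

end Q99.RM
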