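import Pool.Agent.Q99.RM.ES
import Pool.Agent.Q99.RD.Main

/-!
# The measures of Mackey noncompactness are not equivalent
-/

set_option autoImplicit false
open Filter Topology
open scoped ENNReal NNReal

namespace Q99.RM

open Q99.RD (UWC LI L1 GS psi JE XX RR PP QQ ee sgl piX st)

variable {𝕜 : Type} [RCLike 𝕜]

/-! ### the reciprocal Dunford-Pettis property -/

theorem CompletelyContinuous.toRD {X Y : Type} [NormedAddCommGroup X] [NormedSpace 𝕜 X]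
    [NormedAddCommGroup Y] [NormedSpace 𝕜 Y] {T : X →L[𝕜] Y} (hT : CompletelyContinuous T) :
    Q99.RD.CompletelyContinuous T := by
  intro x hx
  rw [Metric.cauchySeq_iff]
  by_contra hc
  push Not at hc
  obtain ⟨ε, hε, h⟩ := hc
  choose k hk m hm hkm using h
  have h1 := hT (fun j => x (k j) - x (m j)) 0 (fun f => by
    have hf := hx f
    rw [Metric.cauchySeq_iff] at hf
    rw [map_zero, Metric.tendsto_atTop]
    intro η hη
    obtain ⟨N, hN⟩ := hf η hη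
    refine ⟨N, fun j hj => ?_⟩
    have := hN (k j) (hj.trans (hk j)) (m j) (hj.trans (hm j))
    rw [dist_eq_norm] at this
    rwa [map_sub, dist_zero_right])
  rw [map_zero, Metric.tendsto_atTop] at h1
  obtain ⟨N, hN⟩ := h1 ε hε
  have h2 := hN N le_rfl
  rw [dist_zero_right, map_sub, ← dist_eq_norm] at h2
  exact absurd h2 (not_lt.2 (hkm N))

theorem rdpp : RDPP 𝕜 (XX 𝕜) := fun Y _ _ _ T hT => Q99.RD.rdpp Y T hT.toRD

/-! ### Mackey compact sets -/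

section mackey

variable {X : Type} [NormedAddCommGroup X] [NormedSpace 𝕜 X]

theorem mackey_net {H : Set (StrongDual 𝕜 X)} (hH : @IsCompact _ (mackey 𝕜 X) H) {K : Set X}
    (hK : IsWeaklyCompact 𝕜 K) {ε : ℝ} (hε : 0 < ε) :
    ∃ F : Set (StrongDual 𝕜 X), F ⊆ H ∧ F.Finite ∧ ∀ h ∈ H, ∃ f ∈ F, ∀ x ∈ K, ‖f x - h x‖ < ε := by
  let := mackey 𝕜 X
  obtain ⟨t, ht1, ht2⟩ := hH.elim_nhds_subcover (fun f => {h | ∀ x ∈ K, ‖f x - h x‖ < ε}) (fun f _ => by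
    rw [nhds_induced]
    refine ⟨_, UniformOnFun.gen_mem_nhds (𝔖 := {K : Set X | IsWeaklyCompact 𝕜 K}) 𝕜 _ hK (Metric.dist_mem_uniformity hε), ?_⟩
    intro h hh x hx
    have := hh x hx
    rw [← dist_eq_norm]
    exact this)
  refine ⟨t, ht1, t.finite_toSet, fun h hh => ?_⟩
  obtain ⟨f, hf, hfh⟩ := Set.mem_iUnion₂.1 (ht2 hh)
  exact ⟨f, hf, hfh⟩

theorem isWeaklyCompact_seq {x : ℕ → X} {a : X}
    (h : ∀ f : StrongDual 𝕜 X, Tendsto (fun n => f (x n)) atTop (𝓝 (f a))) :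
    IsWeaklyCompact 𝕜 (insert a (Set.range x)) := by
  have h1 : Tendsto (fun n => toWeakSpace 𝕜 X (x n)) atTop (𝓝 (toWeakSpace 𝕜 X a)) := by
    have hι : IsInducing (fun (v : WeakSpace 𝕜 X) (f : StrongDual 𝕜 X) => f ((toWeakSpace 𝕜 X).symm v)) := ⟨rfl⟩
    rw [hι.tendsto_nhds_iff, tendsto_pi_nhds]
    exact h
  have h2 := h1.isCompact_insert_range
  unfold IsWeaklyCompact
  rw [Set.image_insert_eq, ← Set.range_comp]
  exact h2

theorem mackey_bounded [CompleteSpace X] {H : Set (StrongDual 𝕜 X)} (hH : @IsCompact _ (mackey 𝕜 X) H) :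
    ∃ C, ∀ h : H, ‖(h : StrongDual 𝕜 X)‖ ≤ C := by
  apply banach_steinhaus
  intro x
  obtain ⟨F, hF1, hF2, hF3⟩ := mackey_net hH (isWeaklyCompact_seq (x := fun _ => x) (a := x)
    (fun f => tendsto_const_nhds)) one_pos
  obtain ⟨C, hC⟩ := (hF2.image (fun f => ‖f x‖)).bddAbove
  refine ⟨C + 1, fun h => ?_⟩
  obtain ⟨f, hf, hfx⟩ := hF3 h h.2
  have h1 := hfx x (Set.mem_insert _ _)
  have h2 : ‖f x‖ ≤ C := hC ⟨f, hf, rfl⟩
  have h3 : (h : StrongDual 𝕜 X) x = f x - (f x - (h : StrongDual 𝕜 X) x) := by ring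
  show ‖(h : StrongDual 𝕜 X) x‖ ≤ C + 1
  rw [h3]
  exact (norm_sub_le _ _).trans (by linarith)

/-- the operator given by a Mackey compact set is completely continuous -/
theorem mackey_op [CompleteSpace X] {H : Set (StrongDual 𝕜 X)} (hH : @IsCompact _ (mackey 𝕜 X) H) :
    ∃ T : X →L[𝕜] LI 𝕜 H, (∀ x (h : H), T x h = (h : StrongDual 𝕜 X) x) ∧ CompletelyContinuous T := by
  obtain ⟨C, hC⟩ := mackey_bounded hH
  have hC' : ∀ h : H, ‖(h : StrongDual 𝕜 X)‖ ≤ max C 0 := fun h => (hC h).trans (le_max_left _ _)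
  have h1 : ∀ x : X, ∃ y : LI 𝕜 H, (∀ h : H, y h = (h : StrongDual 𝕜 X) x) ∧ ‖y‖ ≤ max C 0 * ‖x‖ := by
    intro x
    refine Q99.RD.exists_LI (fun h : H => (h : StrongDual 𝕜 X) x) _
      (mul_nonneg (le_max_right _ _) (norm_nonneg _)) fun h => ?_
    exact ((h : StrongDual 𝕜 X).le_opNorm x).trans (mul_le_mul_of_nonneg_right (hC' h) (norm_nonneg _))
  choose J hJ1 hJ2 using h1
  let L : X →ₗ[𝕜] LI 𝕜 H :=
    { toFun := J
      map_add' := fun l l' => by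
        apply lp.ext
        funext s
        show J (l + l') s = J l s + J l' s
        rw [hJ1, hJ1, hJ1, map_add]
      map_smul' := fun c l => by
        apply lp.ext
        funext s
        show J (c • l) s = c * J l s
        rw [hJ1, hJ1, map_smul, smul_eq_mul] }
  refine ⟨L.mkContinuous _ hJ2, hJ1, fun x a hx => ?_⟩
  rw [Metric.tendsto_atTop]
  intro ε hε
  obtain ⟨F, hF1, hF2, hF3⟩ := mackey_net hH (isWeaklyCompact_seq hx) (show 0 < ε / 4 by positivity)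
  have h2 : ∀ᶠ n in atTop, ∀ f ∈ F, ‖f (x n) - f a‖ < ε / 4 := by
    rw [hF2.eventually_all]
    intro f _
    have := Metric.tendsto_nhds.1 (hx f) (ε / 4) (by positivity)
    simpa only [dist_eq_norm] using this
  obtain ⟨N, hN⟩ := Filter.eventually_atTop.1 h2
  refine ⟨N, fun n hn => ?_⟩
  rw [dist_eq_norm]
  refine lt_of_le_of_lt (Q99.RD.norm_LI_le (C := 3 * (ε / 4)) (by positivity) fun h => ?_) (by linarith)
  show ‖J (x n) h - J a h‖ ≤ _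
  rw [hJ1, hJ1]
  obtain ⟨f, hf, hfh⟩ := hF3 h h.2
  have e1 := hfh (x n) (Set.mem_insert_of_mem _ ⟨n, rfl⟩)
  have e2 := hfh a (Set.mem_insert _ _)
  have e3 := hN n hn f hf
  have e4 : (h : StrongDual 𝕜 X) (x n) - (h : StrongDual 𝕜 X) a =
      -(f (x n) - (h : StrongDual 𝕜 X) (x n)) + (f (x n) - f a) + (f a - (h : StrongDual 𝕜 X) a) := by ring
  rw [e4]
  refine (norm_add₃_le).trans ?_
  rw [norm_neg]
  linarith

end mackey

/-! ### the sets -/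

/-- the point evaluations composed with the operators -/
noncomputable def ev (s : GS 𝕜) : StrongDual 𝕜 (LI 𝕜 (GS 𝕜)) := (Q99.RD.evL_exists s).choose
theorem ev_apply (s : GS 𝕜) (x : LI 𝕜 (GS 𝕜)) : ev s x = x s := (Q99.RD.evL_exists s).choose_spec.1 x
theorem ev_le (s : GS 𝕜) : ‖ev (𝕜 := 𝕜) s‖ ≤ 1 := (Q99.RD.evL_exists s).choose_spec.2

/-- the sets -/
def AA (𝕜 : Type) [RCLike 𝕜] (n : ℕ) : Set (StrongDual 𝕜 (XX 𝕜)) := Set.range (fun s : GS 𝕜 => (ev s).comp (RR 𝕜 n))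

theorem AA_nonempty (n : ℕ) : (AA 𝕜 n).Nonempty := ⟨_, ⟨st 𝕜 0, rfl⟩⟩

theorem AA_bounded (n : ℕ) : Bornology.IsBounded (AA 𝕜 n) := by
  rw [isBounded_iff_forall_norm_le]
  refine ⟨1 * ‖RR 𝕜 n‖, ?_⟩
  rintro _ ⟨s, rfl⟩
  exact ((ev s).opNorm_comp_le _).trans (mul_le_mul_of_nonneg_right (ev_le s) (norm_nonneg _))

theorem omegam_AA (n : ℕ) : 1 ≤ omegam (AA 𝕜 n) := by
  unfold omegam
  refine le_iInf fun H => le_iInf fun hH => ?_
  by_contra hc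
  rw [not_le] at hc
  obtain ⟨r, hr1, hr2⟩ := exists_between hc
  have hrt : r ≠ ⊤ := ne_top_of_lt hr2
  obtain ⟨T, hT1, hT2⟩ := mackey_op hH
  have hu := (Q99.RD.rdpp (LI 𝕜 H) T hT2.toRD).uwc
  have h1 : ∀ m, ∃ h ∈ H, edist ((ev (st 𝕜 m)).comp (RR 𝕜 n)) h < r := by
    intro m
    have h2 : Metric.infEDist ((ev (st 𝕜 m)).comp (RR 𝕜 n)) H < r := by
      refine lt_of_le_of_lt ?_ hr1
      exact le_iSup₂ (f := fun (a : StrongDual 𝕜 (XX 𝕜)) (_ : a ∈ AA 𝕜 n) => Metric.infEDist a H) _ ⟨_, rfl⟩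
    exact Metric.infEDist_lt_iff.1 h2
  choose h hhH hhd using h1
  obtain ⟨ρ, hρ⟩ : ∃ ρ : ℝ, ρ = r.toReal := ⟨_, rfl⟩
  have hρ1 : ρ < 1 := by
    rw [hρ]
    have := (ENNReal.toReal_lt_toReal hrt ENNReal.one_ne_top).2 hr2
    simpa using this
  have hd : ∀ m, ‖(ev (st 𝕜 m)).comp (RR 𝕜 n) - h m‖ ≤ ρ := by
    intro m
    have h2 := (ENNReal.toReal_lt_toReal (edist_ne_top _ _) hrt).2 (hhd m)
    rw [← hρ, ← dist_edist, dist_eq_norm] at h2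
    exact h2.le
  -- the points
  obtain ⟨x, hx⟩ : ∃ x : ℕ → XX 𝕜, x = fun k => piX 𝕜 (sgl 𝕜 n (ee 𝕜 k, 0)) := ⟨_, rfl⟩
  have hx1 : ∀ k, x k ∈ Metric.closedBall (0 : XX 𝕜) 1 := by
    intro k
    rw [mem_closedBall_zero_iff, hx]
    refine (Q99.RD.piX_le _).trans ?_
    have h1 : ‖(sgl 𝕜 n ((ee 𝕜 k, 0) : PP 𝕜) : Q99.RD.L2S (PP 𝕜))‖ = ‖((ee 𝕜 k, 0) : PP 𝕜)‖ :=
      lp.norm_single (E := fun _ : ℕ => PP 𝕜) (p := 2) (by norm_num) n _
    show ‖(sgl 𝕜 n ((ee 𝕜 k, 0) : PP 𝕜) : Q99.RD.L2S (PP 𝕜))‖ ≤ 1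
    rw [h1, Prod.norm_def]
    show max ‖ee 𝕜 k‖ ‖(0 : LI 𝕜 (GS 𝕜))‖ ≤ 1
    rw [Q99.RD.norm_ee, norm_zero]
    simp
  have hx2 : ∀ k, RR 𝕜 n (x k) = JE 𝕜 (ee 𝕜 k) := by
    intro k
    rw [hx]
    show RR 𝕜 n (piX 𝕜 (sgl 𝕜 n (ee 𝕜 k, 0))) = _
    rw [Q99.RD.RR_apply, Q99.RD.sgl_self, Q99.RD.QQ_apply]
    show JE 𝕜 (ee 𝕜 k) + Q99.RD.sc 𝕜 n • (0 : LI 𝕜 (GS 𝕜)) = _
    rw [smul_zero, add_zero]
  have hax : ∀ m k, ((ev (st 𝕜 m)).comp (RR 𝕜 n)) (x k) = if k ≤ m then 1 else -1 := by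
    intro m k
    show ev (st 𝕜 m) (RR 𝕜 n (x k)) = _
    rw [ev_apply, hx2, Q99.RD.JE_apply, Q99.RD.psi_ee]
    rfl
  have hdx : ∀ m k, ‖(if k ≤ m then (1 : 𝕜) else -1) - h m (x k)‖ ≤ ρ := by
    intro m k
    have h2 := ((ev (st 𝕜 m)).comp (RR 𝕜 n) - h m).le_opNorm (x k)
    have h3 : ((ev (st 𝕜 m)).comp (RR 𝕜 n) - h m) (x k) = (if k ≤ m then (1 : 𝕜) else -1) - h m (x k) := by
      rw [← hax]
      rfl
    rw [h3] at h2
    have h4 := hx1 k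
    rw [mem_closedBall_zero_iff] at h4
    have h5 := hd m
    have h6 := norm_nonneg ((ev (st 𝕜 m)).comp (RR 𝕜 n) - h m)
    nlinarith [norm_nonneg (x k)]
  obtain ⟨y, hy⟩ := hu 1 ((hyperfilter ℕ).map x) (by
    rw [Ultrafilter.mem_map]
    exact Filter.univ_mem' hx1)
  have hy' : ∀ f : StrongDual 𝕜 (LI 𝕜 H), Tendsto (fun k => f (T (x k))) (hyperfilter ℕ : Filter ℕ) (𝓝 (f y)) := by
    intro f
    have h1 := hy f
    rw [Ultrafilter.coe_map, tendsto_map'_iff] at h1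
    exact h1
  have hev := fun t : H => Q99.RD.evL_exists (𝕜 := 𝕜) t
  choose e he1 he2 using hev
  obtain ⟨G, hG1, hG2⟩ := Q99.RD.exists_ulim (fun m => e ⟨h m, hhH m⟩) (fun m => he2 _)
  have h1 : ∀ m, ‖(-1 : 𝕜) - e ⟨h m, hhH m⟩ y‖ ≤ ρ := by
    intro m
    have h2 := (tendsto_const_nhds (x := (-1 : 𝕜))).sub (hy' (e ⟨h m, hhH m⟩)) |>.norm
    refine le_of_tendsto h2 ?_
    filter_upwards [Q99.RD.hyp_ge (m + 1)] with k hk
    rw [he1, hT1]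
    have h3 := hdx m k
    rw [if_neg (by omega)] at h3
    exact h3
  have h2 : ‖(-1 : 𝕜) - G y‖ ≤ ρ :=
    le_of_tendsto ((tendsto_const_nhds (x := (-1 : 𝕜))).sub (hG2 y)).norm (Filter.Eventually.of_forall h1)
  have h3 : ‖(1 : 𝕜) - G y‖ ≤ ρ := by
    refine le_of_tendsto ((tendsto_const_nhds (x := (1 : 𝕜))).sub (hy' G)).norm (Filter.Eventually.of_forall fun k => ?_)
    refine le_of_tendsto ((tendsto_const_nhds (x := (1 : 𝕜))).sub (hG2 (T (x k)))).norm ?_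
    filter_upwards [Q99.RD.hyp_ge k] with m hm
    rw [he1, hT1]
    have h4 := hdx m k
    rw [if_pos hm] at h4
    exact h4
  have h6 : (2 : 𝕜) = ((1 : 𝕜) - G y) - ((-1 : 𝕜) - G y) := by ring
  have h7 : (2 : ℝ) = ‖(2 : 𝕜)‖ := (RCLike.norm_ofNat 2).symm
  have h8 : ‖(2 : 𝕜)‖ ≤ ρ + ρ := by
    rw [h6]
    exact (norm_sub_le _ _).trans (add_le_add h3 h2)
  linarith

/-- finite nets of the images of weakly compact sets -/
theorem exists_net (n : ℕ) {L : Set (XX 𝕜)} (hL1 : L ⊆ Metric.closedBall 0 1) (hL2 : IsWeaklyCompact 𝕜 L) :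
    ∃ F : Finset (XX 𝕜), ∀ x ∈ L, ∃ y ∈ F, ‖RR 𝕜 n x - RR 𝕜 n y‖ < 26 / (n + 1) := by
  by_contra hc
  push Not at hc
  obtain ⟨x, hx1, hx2⟩ := exists_seq_of_forall_finset_exists (fun x : XX 𝕜 => x ∈ L)
    (fun y x => 26 / ((n : ℝ) + 1) ≤ ‖RR 𝕜 n x - RR 𝕜 n y‖) (fun F _ => by
      obtain ⟨x, hx, hx'⟩ := hc F
      exact ⟨x, hx, hx'⟩)
  obtain ⟨φ, a, hφ, ha, hfa⟩ := exists_subseq hL2 x hx1
  have h1 : Q99.RD.WeaklyCauchy 𝕜 (fun k => x (φ k)) := fun f => (hfa f).cauchySeq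
  have h2 : Q99.RD.ca (fun k => RR 𝕜 n (x (φ k))) ≤ ENNReal.ofReal (25 / (n + 1)) := by
    refine le_trans ?_ (Q99.RD.cc_RR (𝕜 := 𝕜) n)
    unfold Q99.RD.cc
    exact le_iSup_of_le (fun k => x (φ k)) (le_iSup_of_le (fun k => hL1 (hx1 _)) (le_iSup_of_le h1 le_rfl))
  have h3 : ENNReal.ofReal (26 / (n + 1)) ≤ Q99.RD.ca (fun k => RR 𝕜 n (x (φ k))) := by
    unfold Q99.RD.ca
    refine le_iInf fun N => ?_
    refine le_iSup_of_le (N + 1) (le_iSup_of_le (Nat.le_succ N) (le_iSup_of_le N (le_iSup_of_le le_rfl ?_)))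
    rw [edist_dist, dist_eq_norm]
    exact ENNReal.ofReal_le_ofReal (hx2 (φ N) (φ (N + 1)) (hφ (Nat.lt_succ_self N)))
  have h4 := h3.trans h2
  rw [ENNReal.ofReal_le_ofReal_iff (by positivity)] at h4
  have hn : (0 : ℝ) < n + 1 := by positivity
  rw [div_le_div_iff_of_pos_right hn] at h4
  norm_num at h4

theorem chim_AA (n : ℕ) : chim (AA 𝕜 n) ≤ ENNReal.ofReal (53 / (n + 1)) := by
  unfold chim
  refine iSup_le fun L => iSup_le fun hL1 => iSup_le fun hL2 => ?_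
  obtain ⟨F, hF⟩ := exists_net n hL1 hL2
  have hn : (0 : ℝ) < n + 1 := by positivity
  -- the values on the net
  let Ψ : GS 𝕜 → (F → 𝕜) := fun s y => RR 𝕜 n y s
  have hΨ : TotallyBounded (Set.range Ψ) := by
    have hb : Bornology.IsBounded (Set.range Ψ) := by
      obtain ⟨C, hC⟩ := (F.finite_toSet.image (fun y => ‖RR 𝕜 n y‖)).bddAbove
      rw [isBounded_iff_forall_norm_le]
      refine ⟨max C 0, ?_⟩
      rintro _ ⟨s, rfl⟩
      rw [pi_norm_le_iff_of_nonneg (le_max_right _ _)]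
      intro y
      exact ((Q99.RD.LI_apply_le (RR 𝕜 n y) s).trans (hC ⟨y, y.2, rfl⟩)).trans (le_max_left _ _)
    obtain ⟨r, hr⟩ := hb.subset_closedBall 0
    exact (isCompact_closedBall (0 : F → 𝕜) r).totallyBounded.subset hr
  obtain ⟨t, ht1, ht2, ht3⟩ := Metric.finite_approx_of_totallyBounded hΨ (1 / (n + 1)) (by positivity)
  obtain ⟨S, hS1, hS2⟩ : ∃ S : Set (GS 𝕜), S.Finite ∧ t = Ψ '' S := by
    obtain ⟨S, -, hS1, hS2⟩ := Set.exists_subset_image_finite_and.1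
      ⟨t, (by rw [Set.image_univ]; exact ht1), ht2, rfl⟩
    exact ⟨S, hS1, hS2⟩
  unfold chi0
  refine iInf_le_of_le (restr L '' ((fun s : GS 𝕜 => (ev s).comp (RR 𝕜 n)) '' S))
    (iInf_le_of_le ?_ (iInf_le_of_le ((hS1.image _).image _) ?_))
  · exact Set.image_mono (Set.image_subset_range _ _)
  unfold dhat
  refine iSup₂_le ?_
  rintro _ ⟨_, ⟨s, rfl⟩, rfl⟩
  have h1 := ht3 ⟨s, rfl⟩
  obtain ⟨w, hw, hsw⟩ := Set.mem_iUnion₂.1 h1
  rw [hS2] at hw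
  obtain ⟨s', hs', rfl⟩ := hw
  rw [Metric.mem_ball, dist_pi_lt_iff (by positivity)] at hsw
  have hmem : restr L ((ev s').comp (RR 𝕜 n)) ∈ restr L '' ((fun s : GS 𝕜 => (ev s).comp (RR 𝕜 n)) '' S) :=
    ⟨_, ⟨s', hs', rfl⟩, rfl⟩
  refine (Metric.infEDist_le_edist_of_mem hmem).trans ?_
  rw [UniformFun.edist_le]
  rintro ⟨x, hx⟩
  show edist (ev s (RR 𝕜 n x)) (ev s' (RR 𝕜 n x)) ≤ _
  rw [ev_apply, ev_apply, edist_dist, dist_eq_norm]
  apply ENNReal.ofReal_le_ofReal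
  obtain ⟨y, hy, hxy⟩ := hF x hx
  have h2 := hsw ⟨y, hy⟩
  rw [dist_eq_norm] at h2
  have h3 : ‖RR 𝕜 n y s - RR 𝕜 n y s'‖ < 1 / (n + 1) := h2
  have h4 : ∀ s : GS 𝕜, ‖RR 𝕜 n x s - RR 𝕜 n y s‖ ≤ 26 / (n + 1) := fun s =>
    (Q99.RD.LI_apply_le (RR 𝕜 n x - RR 𝕜 n y) s).trans hxy.le
  have h5 : RR 𝕜 n x s - RR 𝕜 n x s' = (RR 𝕜 n x s - RR 𝕜 n y s) + (RR 𝕜 n y s - RR 𝕜 n y s') -
      (RR 𝕜 n x s' - RR 𝕜 n y s') := by ring
  rw [h5]
  have h6 : (53 : ℝ) / (n + 1) = 26 / (n + 1) + 1 / (n + 1) + 26 / (n + 1) := by ring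
  rw [h6]
  exact (norm_sub_le _ _).trans (add_le_add ((norm_add_le _ _).trans (add_le_add (h4 s) h3.le)) (h4 s'))

theorem main (n : ℕ) : (n : ℝ≥0∞) * chim (AA 𝕜 (53 * n)) < omegam (AA 𝕜 (53 * n)) := by
  refine lt_of_lt_of_le ?_ (omegam_AA _)
  refine lt_of_le_of_lt (mul_le_mul_right (chim_AA _) _) ?_
  have h1 : (n : ℝ≥0∞) = ENNReal.ofReal n := (ENNReal.ofReal_natCast n).symm
  rw [h1, ← ENNReal.ofReal_mul (by positivity), ← ENNReal.ofReal_one]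
  rw [ENNReal.ofReal_lt_ofReal_iff one_pos, mul_div_assoc', div_lt_one (by positivity)]
  push_cast
  linarith

end Q99.RM
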